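import Pool.Agent.N440.LB.Stm

set_option autoImplicit false

/-! Project LB, part I1: the divergence theorem for the product of the chord function with `Ak`. -/

namespace Pool.Agent.N542.LB

open Complex Set MeasureTheory Filter Topology Pool.Agent.W780.PG Pool.Agent.W780.BB
  Pool.Agent.TH103.BL Pool.Agent.N440.LB

open scoped Real ComplexConjugate Interval

theorem dir_cont : Continuous dir := by
  unfold dir; fun_prop

theorem conj_dir_mul (θ : ℝ) : conj (dir θ) * dir θ = 1 := by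
  have h : ‖dir θ‖ = 1 := by rw [dir]; exact Complex.norm_exp_ofReal_mul_I θ
  rw [mul_comm, Complex.mul_conj, Complex.normSq_eq_norm_sq, h]; simp

theorem off_add (θ s : ℝ) (z : ℂ) : off θ (z + s • dir θ) = off θ z := by
  have e : conj (dir θ) * (z + s • dir θ) = conj (dir θ) * z + (s : ℂ) := by
    rw [mul_add, Complex.real_smul]
    have := conj_dir_mul θ
    linear_combination (s : ℂ) * this
  rw [off, off, e]; simp

theorem off_cont : Continuous (fun x : ℝ × ℂ => off x.1 x.2) := by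
  unfold off
  exact Complex.continuous_im.comp
    ((Complex.continuous_conj.comp (dir_cont.comp continuous_fst)).mul continuous_snd)

variable {F : ℝ → ℝ → ℝ} {C : ℝ}

/-- joint measurability of the integrand of `Ak` -/
theorem ak_meas (hG : Measurable (fun x : ℂ × ℝ => G F x.1 x.2)) (k : ℕ) (θ' : ℝ) :
    Measurable (fun x : ℂ × ℝ => Real.sin (k * (x.2 - θ')) * G F x.1 x.2) := by
  have : Measurable (fun x : ℂ × ℝ => Real.sin (k * (x.2 - θ'))) := by fun_prop
  exact this.mul hG

theorem dk_meas (hF : Measurable (Function.uncurry F)) (k : ℕ) (θ' : ℝ) :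
    Measurable (fun x : ℂ × ℝ =>
      Real.sin (k * (x.2 - θ')) * F x.2 (off x.2 x.1) * Real.sin (θ' - x.2)) := by
  have h1 : Measurable (fun x : ℂ × ℝ => Real.sin (k * (x.2 - θ'))) := by fun_prop
  have h2 : Measurable (fun x : ℂ × ℝ => Real.sin (θ' - x.2)) := by fun_prop
  have h3 : Measurable (fun x : ℂ × ℝ => (x.2, off x.2 x.1)) :=
    measurable_snd.prodMk (off_cont.measurable.comp (measurable_snd.prodMk measurable_fst))
  exact (h1.mul (hF.comp h3)).mul h2

theorem int_meas {f : ℂ × ℝ → ℝ} (hf : Measurable f) :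
    Measurable (fun z : ℂ => ∫ θ in (0 : ℝ)..(2 * π), f (z, θ)) := by
  have h : (fun z : ℂ => ∫ θ in (0 : ℝ)..(2 * π), f (z, θ)) =
      fun z : ℂ => ∫ θ in Ioc (0 : ℝ) (2 * π), f (z, θ) := by
    funext z
    exact intervalIntegral.integral_of_le (by positivity)
  rw [h]
  exact (hf.stronglyMeasurable.integral_prod_right' (ν := volume.restrict (Ioc 0 (2 * π)))).measurable

theorem Ak_measurable (hG : Measurable (fun x : ℂ × ℝ => G F x.1 x.2)) (k : ℕ) (θ' : ℝ) :
    Measurable (fun z => Ak F k z θ') := int_meas (ak_meas hG k θ')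

theorem Dk_measurable (hF : Measurable (Function.uncurry F)) (k : ℕ) (θ' : ℝ) :
    Measurable (fun z => Dk F k z θ') := int_meas (dk_meas hF k θ')

theorem F_off_measurable (hF : Measurable (Function.uncurry F)) (θ' : ℝ) :
    Measurable (fun z => F θ' (off θ' z)) := by
  have h3 : Measurable (fun z : ℂ => (θ', off θ' z)) :=
    measurable_const.prodMk (off_cont.measurable.comp (measurable_const.prodMk measurable_id))
  exact hF.comp h3

theorem Ak_bound (hGb : ∀ z θ, |G F z θ| ≤ C * ‖z‖) (k : ℕ) (θ' : ℝ) (z : ℂ) :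
    |Ak F k z θ'| ≤ C * ‖z‖ * (2 * π) := by
  have h := intervalIntegral.norm_integral_le_of_norm_le_const (a := (0 : ℝ)) (b := 2 * π)
    (f := fun θ => Real.sin (k * (θ - θ')) * G F z θ) (C := C * ‖z‖) (fun θ _ => by
      rw [Real.norm_eq_abs, abs_mul]
      calc |Real.sin (k * (θ - θ'))| * |G F z θ| ≤ 1 * (C * ‖z‖) :=
            mul_le_mul (Real.abs_sin_le_one _) (hGb z θ) (abs_nonneg _) zero_le_one
        _ = C * ‖z‖ := one_mul _)
  rw [Real.norm_eq_abs, sub_zero, abs_of_pos (by positivity : (0 : ℝ) < 2 * π)] at h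
  exact h

theorem Dk_bound (hFb : ∀ θ u, |F θ u| ≤ C) (k : ℕ) (θ' : ℝ) (z : ℂ) :
    |Dk F k z θ'| ≤ C * (2 * π) := by
  have h := intervalIntegral.norm_integral_le_of_norm_le_const (a := (0 : ℝ)) (b := 2 * π)
    (f := fun θ => Real.sin (k * (θ - θ')) * F θ (off θ z) * Real.sin (θ' - θ)) (C := C)
    (fun θ _ => by
      rw [Real.norm_eq_abs, abs_mul, abs_mul]
      calc |Real.sin (k * (θ - θ'))| * |F θ (off θ z)| * |Real.sin (θ' - θ)| ≤ 1 * C * 1 :=
            mul_le_mul (mul_le_mul (Real.abs_sin_le_one _) (hFb _ _) (abs_nonneg _) zero_le_one)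
              (Real.abs_sin_le_one _) (abs_nonneg _)
              (by rw [one_mul]; exact (abs_nonneg _).trans (hFb 0 0))
        _ = C := by ring)
  rw [Real.norm_eq_abs, sub_zero, abs_of_pos (by positivity : (0 : ℝ) < 2 * π)] at h
  exact h

/-- interchange of the order of integration, over a rectangle -/
theorem swap_int {g : ℝ × ℝ → ℝ} (hg : Measurable g) (hb : ∀ x, |g x| ≤ C) (s : ℝ) :
    ∫ θ in (0 : ℝ)..(2 * π), ∫ r in (0 : ℝ)..s, g (θ, r) =
      ∫ r in (0 : ℝ)..s, ∫ θ in (0 : ℝ)..(2 * π), g (θ, r) := by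
  have hint : Integrable (Function.uncurry (fun θ r => g (θ, r)))
      ((volume.restrict (Ι (0 : ℝ) (2 * π))).prod (volume.restrict (Ι (0 : ℝ) s))) := by
    have : Function.uncurry (fun θ r => g (θ, r)) = g := by
      funext x; rfl
    rw [this]
    have hf1 : IsFiniteMeasure (volume.restrict (Ι (0 : ℝ) (2 * π))) :=
      ⟨by rw [Measure.restrict_apply_univ, uIoc]; exact measure_Ioc_lt_top⟩
    have hf2 : IsFiniteMeasure (volume.restrict (Ι (0 : ℝ) s)) :=
      ⟨by rw [Measure.restrict_apply_univ, uIoc]; exact measure_Ioc_lt_top⟩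
    exact Integrable.of_bound hg.aestronglyMeasurable C (ae_of_all _ (fun x => hb x))
  have h := integral_integral_swap hint
  simp only [intervalIntegral.intervalIntegral_eq_integral_uIoc, smul_eq_mul]
  rw [integral_const_mul, integral_const_mul]
  rw [h]
  ring

theorem bdd_integrable {h : ℝ → ℝ} (hm : Measurable h) {K : ℝ} (hb : ∀ x, |h x| ≤ K)
    (a b : ℝ) : IntervalIntegrable h volume a b := by
  rw [intervalIntegrable_iff]
  have hf1 : IsFiniteMeasure (volume.restrict (Ι a b)) :=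
    ⟨by rw [Measure.restrict_apply_univ, uIoc]; exact measure_Ioc_lt_top⟩
  exact Integrable.of_bound hm.aestronglyMeasurable K (ae_of_all _ hb)

theorem diff_gen (g : ℂ → ℝ → ℝ) (hg : Measurable (fun x : ℂ × ℝ => g x.1 x.2)) (K : ℂ → ℝ)
    (hgb : ∀ z θ, |g z θ| ≤ K z) (u : ℝ × ℝ → ℝ) (hu : Measurable u) (hub : ∀ x, |u x| ≤ C)
    (z w : ℂ) (s : ℝ)
    (he : ∀ θ, g w θ - g z θ = ∫ r in (0 : ℝ)..s, u (θ, r)) :
    (∫ θ in (0 : ℝ)..(2 * π), g w θ) - (∫ θ in (0 : ℝ)..(2 * π), g z θ) =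
      ∫ r in (0 : ℝ)..s, ∫ θ in (0 : ℝ)..(2 * π), u (θ, r) := by
  have hii : ∀ w : ℂ, IntervalIntegrable (fun θ => g w θ) volume 0 (2 * π) := by
    intro w
    have h1 : Measurable (fun θ : ℝ => ((w, θ) : ℂ × ℝ)) := measurable_const.prodMk measurable_id
    exact bdd_integrable (hg.comp h1) (hgb w) 0 (2 * π)
  rw [← intervalIntegral.integral_sub (hii _) (hii _), ← swap_int hu hub s]
  exact intervalIntegral.integral_congr (fun θ _ => he θ)

theorem Ak_diff (hF : Measurable (Function.uncurry F)) (hFb : ∀ θ u, |F θ u| ≤ C)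
    (hG : Measurable (fun x : ℂ × ℝ => G F x.1 x.2)) (hGb : ∀ z θ, |G F z θ| ≤ C * ‖z‖)
    (hGs : ∀ (θ θ' s : ℝ) (z : ℂ), G F (z + s • dir θ') θ - G F z θ =
      (∫ r in (0 : ℝ)..s, F θ (off θ (z + r • dir θ'))) * Real.sin (θ' - θ))
    (k : ℕ) (θ' s : ℝ) (z : ℂ) :
    Ak F k (z + s • dir θ') θ' - Ak F k z θ' = ∫ r in (0 : ℝ)..s, Dk F k (z + r • dir θ') θ' := by
  have hgm : Measurable (fun x : ℝ × ℝ => Real.sin (k * (x.1 - θ')) *
      F x.1 (off x.1 (z + x.2 • dir θ')) * Real.sin (θ' - x.1)) := by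
    have h1 : Measurable (fun x : ℝ × ℝ => Real.sin (k * (x.1 - θ'))) := by fun_prop
    have h2 : Measurable (fun x : ℝ × ℝ => Real.sin (θ' - x.1)) := by fun_prop
    have h5 : Measurable (fun x : ℝ × ℝ => z + x.2 • dir θ') := by
      have h6 : Continuous (fun x : ℝ × ℝ => z + x.2 • dir θ') := by fun_prop
      exact h6.measurable
    have h4 : Measurable (fun x : ℝ × ℝ => off x.1 (z + x.2 • dir θ')) :=
      off_cont.measurable.comp (measurable_fst.prodMk h5)
    have h3 : Measurable (fun x : ℝ × ℝ => (x.1, off x.1 (z + x.2 • dir θ'))) :=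
      measurable_fst.prodMk h4
    exact (h1.mul (hF.comp h3)).mul h2
  have hgb : ∀ x : ℝ × ℝ, |Real.sin (k * (x.1 - θ')) *
      F x.1 (off x.1 (z + x.2 • dir θ')) * Real.sin (θ' - x.1)| ≤ C := by
    intro x
    rw [abs_mul, abs_mul]
    calc |Real.sin (k * (x.1 - θ'))| * |F x.1 (off x.1 (z + x.2 • dir θ'))| *
          |Real.sin (θ' - x.1)| ≤ 1 * C * 1 :=
          mul_le_mul (mul_le_mul (Real.abs_sin_le_one _) (hFb _ _) (abs_nonneg _) zero_le_one)
            (Real.abs_sin_le_one _) (abs_nonneg _)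
            (by rw [one_mul]; exact (abs_nonneg _).trans (hFb 0 0))
      _ = C := by ring
  refine diff_gen (fun w θ => Real.sin (k * (θ - θ')) * G F w θ) (ak_meas hG k θ')
    (fun w => C * ‖w‖) ?_ _ hgm hgb z (z + s • dir θ') s ?_
  · intro w θ
    rw [abs_mul]
    calc |Real.sin (k * (θ - θ'))| * |G F w θ| ≤ 1 * (C * ‖w‖) :=
          mul_le_mul (Real.abs_sin_le_one _) (hGb w θ) (abs_nonneg _) zero_le_one
      _ = C * ‖w‖ := one_mul _
  · intro θ
    have e2 : (∫ r in (0 : ℝ)..s, Real.sin (k * (θ - θ')) * F θ (off θ (z + r • dir θ')) *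
        Real.sin (θ' - θ)) = Real.sin (k * (θ - θ')) *
          ((∫ r in (0 : ℝ)..s, F θ (off θ (z + r • dir θ'))) * Real.sin (θ' - θ)) := by
      rw [intervalIntegral.integral_mul_const, intervalIntegral.integral_const_mul, mul_assoc]
    rw [← mul_sub, hGs]
    exact e2.symm

theorem t_I1 : S_I1 := by
  intro hDIV hGF n p hp F C hF hFb k θ'
  obtain ⟨hG, hGb, -, hGs⟩ := hGF F C hF hFb
  have hC : 0 ≤ C := (abs_nonneg _).trans (hFb 0 0)
  refine hDIV n p hp θ' (fun z => F θ' (off θ' z) * Ak F k z θ')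
    (fun z => F θ' (off θ' z) * Dk F k z θ')
    ((F_off_measurable hF θ').mul (Ak_measurable hG k θ'))
    ((F_off_measurable hF θ').mul (Dk_measurable hF k θ')) ?_ ?_
  · intro R
    refine ⟨C * (C * |R| * (2 * π)) + C * (C * (2 * π)), fun z hz => ⟨?_, ?_⟩⟩
    · rw [abs_mul]
      have h1 : |Ak F k z θ'| ≤ C * |R| * (2 * π) :=
        (Ak_bound hGb k θ' z).trans (mul_le_mul_of_nonneg_right
          (mul_le_mul_of_nonneg_left (hz.trans (le_abs_self R)) hC) (by positivity))
      have h2 := mul_le_mul (hFb θ' (off θ' z)) h1 (abs_nonneg _) hC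
      have h3 : 0 ≤ C * (C * (2 * π)) := by positivity
      linarith
    · rw [abs_mul]
      have h2 := mul_le_mul (hFb θ' (off θ' z)) (Dk_bound hFb k θ' z) (abs_nonneg _) hC
      have h3 : 0 ≤ C * (C * |R| * (2 * π)) := by positivity
      linarith
  · intro z s
    have e := Ak_diff hF hFb hG hGb hGs k θ' s z
    simp only [off_add]
    rw [intervalIntegral.integral_const_mul, ← e, mul_sub]

end Pool.Agent.N542.LB
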